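import Pool.Agent.NTS.StmtsE

/-! Row EDC of squad NTS. -/

set_option autoImplicit false

open Matrix Filter Topology

namespace Pool.Agent.NTS.H92

open Pool.Agent.PFS Pool.Agent.PFJ

theorem edc : EdcStmt := by
  intro n C hC K w y k j ν hw hB hjk hν hν0
  obtain ⟨M, hM, hB⟩ := hB
  obtain ⟨u, hu⟩ : ∃ u : ℕ → Fin K → ℤ, ∀ N i, u N i = if i = j then 1 else if i = k then 0
      else -(N : ℤ) := ⟨_, fun _ _ => rfl⟩
  have h1 : ∀ N, M • pt w (u N) - y ∈ closure C := by
    intro N
    have h2 : 0 < ∑ i, ν i * (u N i : ℝ) := by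
      rw [Finset.sum_eq_single j]
      · rw [hu, if_pos rfl]
        simpa using hν
      · intro i _ hij
        by_cases hik : i = k
        · rw [hu, if_neg hij, if_pos hik]
          simp
        · rw [hν0 i hij hik, zero_mul]
      · intro h
        exact absurd (Finset.mem_univ j) h
    have h3 := hB (u N) h2
    rw [hu N k, if_neg (Ne.symm hjk), if_pos rfl, zpow_zero, one_smul] at h3
    exact h3
  have hlim : Tendsto (fun N : ℕ => M • pt w (u N) - y) atTop
      (𝓝 (M • (∑ i, (if i = j then (2 : ℝ) else if i = k then 1 else 0) • w i) - y)) := by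
    refine Tendsto.sub_const (Tendsto.const_smul ?_ M) y
    unfold pt
    refine tendsto_finsetSum _ fun i _ => ?_
    refine Tendsto.smul_const ?_ (w i)
    by_cases hij : i = j
    · simp only [hu, if_pos hij, zpow_one]
      exact tendsto_const_nhds
    · by_cases hik : i = k
      · simp only [hu, if_neg hij, if_pos hik, zpow_zero]
        exact tendsto_const_nhds
      · simp only [hu, if_neg hij, if_neg hik]
        have h2 : Tendsto (fun N : ℕ => ((1 : ℝ) / 2) ^ N) atTop (𝓝 0) :=
          tendsto_pow_atTop_nhds_zero_of_lt_one (by norm_num) (by norm_num)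
        refine h2.congr fun N => ?_
        rw [_root_.zpow_neg, zpow_natCast, one_div, inv_pow]
  have h2 := isClosed_closure.mem_of_tendsto hlim (Eventually.of_forall h1)
  have h3 : ∑ i, (if i = j then (2 : ℝ) else if i = k then 1 else 0) • w i =
      (2 : ℝ) • w j + w k := by
    have h4 : ∀ i, (if i = j then (2 : ℝ) else if i = k then 1 else 0) • w i =
        (if i = j then (2 : ℝ) • w j else 0) + (if i = k then w k else 0) := by
      intro i
      by_cases hij : i = j
      · have hik : i ≠ k := fun h => hjk (hij.symm.trans h)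
        rw [if_pos hij, if_pos hij, if_neg hik, add_zero, hij]
      · by_cases hik : i = k
        · rw [if_neg hij, if_neg hij, if_pos hik, if_pos hik, zero_add, one_smul, hik]
        · rw [if_neg hij, if_neg hij, if_neg hik, if_neg hik, zero_smul, add_zero]
    rw [Finset.sum_congr rfl fun i _ => h4 i, Finset.sum_add_distrib, Finset.sum_ite_eq' ,
      Finset.sum_ite_eq', if_pos (Finset.mem_univ _), if_pos (Finset.mem_univ _)]
  rw [h3] at h2
  refine ⟨2 * M, by positivity, ?_⟩
  have h4 : (2 * M) • (w j + w k) - y = (M • ((2 : ℝ) • w j + w k) - y) + M • w k := by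
    module
  rw [h4]
  exact hC.cl_add h2 (hC.cl_smul (hw k) hM.le)

end Pool.Agent.NTS.H92
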